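import Pool.Agent.Helper41.LD5.Defs
import Pool.Agent.Helper65.LD4.Pair
import Pool.Agent.Helper17.LD4.Sys

/-!
# Project LD5, block PC: the pair correlations of a stage with general sequences
-/

set_option autoImplicit false

namespace Pool.Agent.Helper65.LD5

open Set MeasureTheory Filter Topology
open Pool.Agent.Helper41.LD (av var haar DiscLe Dioph Kk)
open Pool.Agent.Helper41.LD2 (EqA)
open Pool.Agent.Helper41.LD3 (Cst Us tm fr lamG lin fr_geo fr_pos fr_add tm_mono tm_spec tm_le tm_gt lt_tm base_gt)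
open Pool.Agent.Helper41.LD4
open Pool.Agent.Helper41.LD5
open Pool.Agent.Helper65.LD4 (pair4)
open Pool.Agent.Helper17.LD4 (sys_cls17)

/-- the numbers -/
private theorem num65 {z mr Nv e₁ e₂ N' Bq nr wC τt : ℝ} (hz : 4 ≤ z) (hm1 : 1 ≤ mr) (hmz : mr ≤ z) (hB : z ^ 12 ≤ Bq)
    (hN0 : 0 ≤ Nv) (hNv : Nv ≤ mr * z) (hN' : N' ≤ Nv * (2 * (1 / z ^ 12) * Bq) + 1) (he₁ : e₁ = 6 * mr ^ 2 * (1 / z ^ 12))
    (he₂ : e₂ ≤ mr * (1 / z ^ 24)) (hn0 : 0 ≤ nr) (hn : nr ≤ z ^ 2) (hw0 : 0 ≤ wC) (hw : wC ≤ z) (hτ : τt ≤ wC * (1 / z ^ 12)) :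
    z ^ 2 * (2 * N' / Bq + e₁) + τt + (nr + wC) * e₂ ≤ 1 / z ^ 4 := by
  have hz0 : 0 < z := by linarith
  have hB0 : 0 < Bq := lt_of_lt_of_le (by positivity) hB
  have h1 : N' / Bq ≤ (2 * mr * z + 1) * (1 / z ^ 12) := by
    rw [div_le_iff₀ hB0]
    have h2 : Nv * (2 * (1 / z ^ 12) * Bq) ≤ mr * z * (2 * (1 / z ^ 12) * Bq) := mul_le_mul_of_nonneg_right hNv (by positivity)
    have h3 : 1 ≤ 1 / z ^ 12 * Bq := by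
      rw [one_div, inv_mul_eq_div, one_le_div (by positivity)]
      exact hB
    calc N' ≤ mr * z * (2 * (1 / z ^ 12) * Bq) + 1 / z ^ 12 * Bq := by linarith
      _ = _ := by ring
  have h4 : 2 * N' / Bq ≤ (4 * mr * z + 2) * (1 / z ^ 12) := by
    calc 2 * N' / Bq = 2 * (N' / Bq) := by ring
      _ ≤ 2 * ((2 * mr * z + 1) * (1 / z ^ 12)) := by linarith
      _ = _ := by ring
  have h5 : z ^ 2 * (2 * N' / Bq + e₁) ≤ z ^ 2 * ((4 * mr * z + 2 + 6 * mr ^ 2) * (1 / z ^ 12)) := by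
    refine mul_le_mul_of_nonneg_left ?_ (by positivity)
    rw [he₁]
    linarith
  have h6 : (nr + wC) * e₂ ≤ (z ^ 2 + z) * (mr * (1 / z ^ 24)) := by
    have h7 : (nr + wC) * e₂ ≤ (nr + wC) * (mr * (1 / z ^ 24)) := mul_le_mul_of_nonneg_left he₂ (by linarith)
    have h8 : (nr + wC) * (mr * (1 / z ^ 24)) ≤ (z ^ 2 + z) * (mr * (1 / z ^ 24)) :=
      mul_le_mul_of_nonneg_right (by linarith) (by positivity)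
    linarith
  have h9 : (z ^ 2 + z) * (mr * (1 / z ^ 24)) ≤ (z ^ 2 + z) * mr * (1 / z ^ 12) := by
    have h10 : 1 / z ^ 24 ≤ 1 / z ^ 12 := one_div_le_one_div_of_le (by positivity) (pow_le_pow_right₀ (by linarith) (by norm_num))
    calc (z ^ 2 + z) * (mr * (1 / z ^ 24)) ≤ (z ^ 2 + z) * (mr * (1 / z ^ 12)) := by gcongr
      _ = _ := by ring
  have h11 : τt ≤ z * (1 / z ^ 12) := hτ.trans (mul_le_mul_of_nonneg_right hw (by positivity))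
  have h12 : z ^ 2 * (4 * mr * z + 2 + 6 * mr ^ 2) + z + (z ^ 2 + z) * mr ≤ z ^ 8 := by
    have h13 : 4 * mr * z + 2 + 6 * mr ^ 2 ≤ 4 * z * z + 2 + 6 * z ^ 2 := by
      have : mr ^ 2 ≤ z ^ 2 := pow_le_pow_left₀ (by linarith) hmz 2
      have : mr * z ≤ z * z := mul_le_mul_of_nonneg_right hmz hz0.le
      linarith
    have h14 : z ^ 2 * (4 * mr * z + 2 + 6 * mr ^ 2) ≤ z ^ 2 * (4 * z * z + 2 + 6 * z ^ 2) := mul_le_mul_of_nonneg_left h13 (by positivity)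
    have h15 : (z ^ 2 + z) * mr ≤ (z ^ 2 + z) * z := mul_le_mul_of_nonneg_left hmz (by positivity)
    have h16 : z ≤ z ^ 4 := le_self_pow₀ (by linarith) (by norm_num)
    have h17 : z ^ 2 ≤ z ^ 4 := pow_le_pow_right₀ (by linarith) (by norm_num)
    have h18 : z ^ 3 ≤ z ^ 4 := pow_le_pow_right₀ (by linarith) (by norm_num)
    have h19 : (256:ℝ) ≤ z ^ 4 := by
      calc (256:ℝ) = 4 ^ 4 := by norm_num
        _ ≤ z ^ 4 := pow_le_pow_left₀ (by norm_num) hz 4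
    have h20 : z ^ 8 = z ^ 4 * z ^ 4 := by ring
    have h21 : 256 * z ^ 4 ≤ z ^ 4 * z ^ 4 := mul_le_mul_of_nonneg_right h19 (by positivity)
    have e1 : z ^ 2 * (4 * z * z + 2 + 6 * z ^ 2) = 10 * z ^ 4 + 2 * z ^ 2 := by ring
    have e2 : (z ^ 2 + z) * z = z ^ 3 + z ^ 2 := by ring
    rw [e1] at h14
    rw [e2] at h15
    rw [h20]
    linarith
  have h22 : z ^ 2 * (2 * N' / Bq + e₁) + τt + (nr + wC) * e₂ ≤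
      (z ^ 2 * (4 * mr * z + 2 + 6 * mr ^ 2) + z + (z ^ 2 + z) * mr) * (1 / z ^ 12) := by
    have e3 : (z ^ 2 * (4 * mr * z + 2 + 6 * mr ^ 2) + z + (z ^ 2 + z) * mr) * (1 / z ^ 12) =
        z ^ 2 * ((4 * mr * z + 2 + 6 * mr ^ 2) * (1 / z ^ 12)) + z * (1 / z ^ 12) + (z ^ 2 + z) * mr * (1 / z ^ 12) := by ring
    rw [e3]
    linarith
  refine h22.trans ((mul_le_mul_of_nonneg_right h12 (by positivity)).trans (le_of_eq ?_))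
  field_simp

open Classical in
/-- PC: the pair correlations from tests for all classes -/
theorem stage_PC5 {κ : ℕ} {τ : ℕ → ℝ} {ty : ℕ → ℕ × ℕ × ℕ} {g Q R CF DF Cb m Cq G K : ℕ} {U : ℕ → ℕ → ℝ → ℝ} {T : ℕ → ℝ → ℕ}
    (H : Cst4 τ ty g Q R CF DF Cb m Cq G) (B : Num κ R DF Cb m G K) {ℓ a : ℝ} (hℓ : 0 < ℓ)
    (hmeas : ∀ s < g * Q, ∀ j, Measurable (U s j))
    (hmono : ∀ s < g * Q, T s ℓ ≤ T s (ℓ / 2 ^ (K ^ (2 * κ + 1))))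
    (hcount : ∀ s < g * Q, T s (ℓ / 2 ^ (K ^ (2 * κ + 1))) + R * K ≤ 2 ^ (2 * K))
    (hWd : WdU ty τ g Q m U T K a ℓ)
    (htest : ∀ s' < g * Q, ∃ t < 2 ^ (2 * K), ∀ q' ∈ sysI (ty (s' / Q)).2.1 K,
      (((Finset.range (2 ^ (K ^ (2 * κ + 1)))).filter fun b : ℕ => ¬ ∃ v : ℝ, ∀ x ∈ Ioo (a + b * (ℓ / (2 ^ (K ^ (2 * κ + 1)) : ℕ)))
        (a + (b + 1) * (ℓ / (2 ^ (K ^ (2 * κ + 1)) : ℕ))), sysf (ty (s' / Q)).2.1 q' (U s' t x) = v).card : ℝ) ≤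
          sysN (ty (s' / Q)).2.1 K * (2 * (1 / 2) ^ (12 * K) * (2 ^ (K ^ (2 * κ + 1)) : ℕ)) + 1 ∧
      |av (fun x => sysf (ty (s' / Q)).2.1 q' (U s' t x)) a ℓ| ≤ m * (1 / 2) ^ (24 * K) ∧
      ∀ s < g * Q, ∀ q ∈ sysI (ty (s / Q)).2.1 K, ∀ j < 2 ^ (2 * K),
        |av (fun x => sysf (ty (s / Q)).2.1 q (U s j x) * sysf (ty (s' / Q)).2.1 q' (U s' t x)) a ℓ -
          (if s = s' ∧ j = t ∧ q = q' then sysv (ty (s / Q)).2.1 q else 0)| ≤ 6 * (m : ℝ) ^ 2 * (1 / 2) ^ (12 * K)) :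
    ∃ t : ℕ → ℕ, ∀ p ∈ PP ty g Q K, ∀ p' ∈ PP ty g Q K,
      |(∑ b ∈ Finset.range (2 ^ (K ^ (2 * κ + 1))), (M (GU ty Q U p) (a + b * (ℓ / (2 ^ (K ^ (2 * κ + 1)) : ℕ))) (ℓ / (2 ^ (K ^ (2 * κ + 1)) : ℕ)) -
          M (GU ty Q U p) a ℓ) * A (GU ty Q U p') (t p'.1) (a + b * (ℓ / (2 ^ (K ^ (2 * κ + 1)) : ℕ))) (ℓ / (2 ^ (K ^ (2 * κ + 1)) : ℕ))) / (2 ^ (K ^ (2 * κ + 1)) : ℕ) -
        (if p = p' then sysv (ty (p.1 / Q)).2.1 p.2 else 0)| ≤ (1 / 2) ^ (4 * K) := by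
  have hQ := H.base.hQ
  have hK1 : 1 ≤ K := by have := B.hK2; omega
  obtain ⟨Λ, hΛ⟩ : ∃ Λ : ℕ, Λ = K ^ (2 * κ + 1) := ⟨_, rfl⟩
  rw [← hΛ] at hmono hcount htest ⊢
  have hex : ∀ s' : ℕ, ∃ t : ℕ, s' < g * Q → t < 2 ^ (2 * K) ∧ ∀ q' ∈ sysI (ty (s' / Q)).2.1 K,
      (((Finset.range (2 ^ Λ)).filter fun b : ℕ => ¬ ∃ v : ℝ, ∀ x ∈ Ioo (a + b * (ℓ / (2 ^ Λ : ℕ)))
        (a + (b + 1) * (ℓ / (2 ^ Λ : ℕ))), sysf (ty (s' / Q)).2.1 q' (U s' t x) = v).card : ℝ) ≤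
          sysN (ty (s' / Q)).2.1 K * (2 * (1 / 2) ^ (12 * K) * (2 ^ Λ : ℕ)) + 1 ∧
      |av (fun x => sysf (ty (s' / Q)).2.1 q' (U s' t x)) a ℓ| ≤ m * (1 / 2) ^ (24 * K) ∧
      ∀ s < g * Q, ∀ q ∈ sysI (ty (s / Q)).2.1 K, ∀ j < 2 ^ (2 * K),
        |av (fun x => sysf (ty (s / Q)).2.1 q (U s j x) * sysf (ty (s' / Q)).2.1 q' (U s' t x)) a ℓ -
          (if s = s' ∧ j = t ∧ q = q' then sysv (ty (s / Q)).2.1 q else 0)| ≤ 6 * (m : ℝ) ^ 2 * (1 / 2) ^ (12 * K) := by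
    intro s'
    by_cases hs : s' < g * Q
    · obtain ⟨t, ht1, ht2⟩ := htest s' hs
      exact ⟨t, fun _ => ⟨ht1, ht2⟩⟩
    · exact ⟨0, fun h => absurd h hs⟩
  choose t ht using hex
  refine ⟨t, ?_⟩
  rintro ⟨s, q⟩ hp ⟨s', q'⟩ hp'
  have hp1 := hp
  have hp1' := hp'
  unfold PP at hp1 hp1'
  rw [Finset.mem_sigma, Finset.mem_range] at hp1 hp1'
  obtain ⟨hs, hq⟩ := hp1
  obtain ⟨hs', hq'⟩ := hp1'
  replace hs : s < g * Q := hs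
  replace hs' : s' < g * Q := hs'
  replace hq : q ∈ sysI (ty (s / Q)).2.1 K := hq
  replace hq' : q' ∈ sysI (ty (s' / Q)).2.1 K := hq'
  obtain ⟨ht1, ht2⟩ := ht s' hs'
  obtain ⟨hfew, he₂, hcorr⟩ := ht2 q' hq'
  have hτs := H.base.lt hs
  -- the numbers
  obtain ⟨z, hz⟩ : ∃ z : ℝ, z = 2 ^ K := ⟨_, rfl⟩
  have hz4 : 4 ≤ z := by
    rw [hz]
    calc (4 : ℝ) = 2 ^ 2 := by norm_num
      _ ≤ 2 ^ K := pow_le_pow_right₀ (by norm_num) B.hK2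
  have hz0 : 0 < z := by linarith
  have h12 : (1 / 2 : ℝ) ^ (12 * K) = 1 / z ^ 12 := by rw [hz, one_div_pow, ← pow_mul, mul_comm K 12]
  have h24 : (1 / 2 : ℝ) ^ (24 * K) = 1 / z ^ 24 := by rw [hz, one_div_pow, ← pow_mul, mul_comm K 24]
  have h4K : (1 / 2 : ℝ) ^ (4 * K) = 1 / z ^ 4 := by rw [hz, one_div_pow, ← pow_mul, mul_comm K 4]
  have h2K : (2 : ℝ) ^ (2 * K) = z ^ 2 := by rw [hz, ← pow_mul, mul_comm K 2]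
  rw [h12] at hfew hcorr
  rw [h24] at he₂
  have hBr : (((2 ^ Λ : ℕ)) : ℝ) = 2 ^ Λ := by push_cast; rfl
  have hBz : z ^ 12 ≤ ((2 ^ Λ : ℕ) : ℝ) := by
    rw [hBr, hz, ← pow_mul, mul_comm K 12, hΛ]
    exact pow_le_pow_right₀ (by norm_num) B.hB
  have hB1 : 1 ≤ 2 ^ Λ := Nat.one_le_two_pow
  have hKz : (K : ℝ) ≤ z := by
    rw [hz]
    exact_mod_cast (Nat.lt_two_pow_self (n := K)).le
  have hCbK : (Cb : ℝ) * (3 * (m : ℝ) ^ 2) ≤ K := by exact_mod_cast B.hCbK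
  have hm1 : (1 : ℝ) ≤ m := by exact_mod_cast H.m1
  have hCb1 : (1 : ℝ) ≤ Cb := by exact_mod_cast H.base.hCb1
  have hmz : (m : ℝ) ≤ z := by
    have h1 : (m : ℝ) ≤ (m : ℝ) ^ 2 := le_self_pow₀ hm1 (by norm_num)
    have h2 : 1 * (3 * (m : ℝ) ^ 2) ≤ Cb * (3 * (m : ℝ) ^ 2) := mul_le_mul_of_nonneg_right hCb1 (by positivity)
    have h3 : (0:ℝ) ≤ (m : ℝ) ^ 2 := by positivity
    linarith
  have hℓ2 : 0 < ℓ / 2 ^ Λ := by positivity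
  have hℓeq : ℓ / ((2 ^ Λ : ℕ) : ℝ) = ℓ / 2 ^ Λ := by rw [hBr]
  have hT1 := hcount s hs
  have hT2 := hmono s hs
  -- the functionals
  have hw : Wd (GU ty Q U ⟨s, q⟩) (τ (s / Q) ^ Q) (3 * (m : ℝ) ^ 2 * sysv (ty (s / Q)).2.1 q) (T s ℓ) a ℓ :=
    hWd ⟨s, q⟩ hp a ℓ hℓ le_rfl le_rfl
  obtain ⟨L, hL⟩ : ∃ L : ℕ, L = T s (ℓ / 2 ^ Λ) - T s ℓ := ⟨_, rfl⟩
  have hw' : ∀ b : ℕ, b < 2 ^ Λ → Wd (GU ty Q U ⟨s, q⟩) (τ (s / Q) ^ Q) (3 * (m : ℝ) ^ 2 * sysv (ty (s / Q)).2.1 q)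
      (T s ℓ + L) (a + b * (ℓ / (2 ^ Λ : ℕ))) (ℓ / (2 ^ Λ : ℕ)) := by
    intro b hb
    rw [show T s ℓ + L = T s (ℓ / 2 ^ Λ) by omega, hℓeq]
    have hbℓ : (b : ℝ) * (ℓ / 2 ^ Λ) + ℓ / 2 ^ Λ ≤ ℓ := by
      have h1 : (b : ℝ) + 1 ≤ 2 ^ Λ := by
        rw [← hBr]
        exact_mod_cast hb
      calc (b : ℝ) * (ℓ / 2 ^ Λ) + ℓ / 2 ^ Λ = ((b : ℝ) + 1) * (ℓ / 2 ^ Λ) := by ring
        _ ≤ 2 ^ Λ * (ℓ / 2 ^ Λ) := mul_le_mul_of_nonneg_right h1 hℓ2.le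
        _ = ℓ := mul_div_cancel₀ ℓ (by positivity)
    have hb0 : 0 ≤ (b : ℝ) * (ℓ / 2 ^ Λ) := by positivity
    exact hWd ⟨s, q⟩ hp (a + b * (ℓ / 2 ^ Λ)) (ℓ / 2 ^ Λ) hℓ2 (by linarith) (by linarith)
  have hSys := sys_cls17 H hK1 hs
  have hSys' := sys_cls17 H hK1 hs'
  have hFn' := hSys'.fn q' hq'
  have hsm' : (sysm (ty (s' / Q)).2.1 : ℝ) ≤ m := by exact_mod_cast H.hm _ (Cst.idx_lt hs')
  have hv1 : sysv (ty (s / Q)).2.1 q ≤ 1 := hSys.v_hi q hq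
  have hv0 : 0 ≤ sysv (ty (s / Q)).2.1 q := by
    refine le_trans ?_ (hSys.v_lo q hq)
    positivity
  obtain ⟨N₀, hN₀⟩ : ∃ N₀ : ℕ, N₀ = sysN (ty (s' / Q)).2.1 K := ⟨_, rfl⟩
  have hN2 : (N₀ : ℝ) ≤ m * z := by
    have h1 : N₀ ≤ sysm (ty (s' / Q)).2.1 * 2 ^ K := by rw [hN₀]; exact hSys'.N2
    have h2 : (N₀ : ℝ) ≤ sysm (ty (s' / Q)).2.1 * 2 ^ K := by exact_mod_cast h1
    rw [hz]
    exact h2.trans (mul_le_mul_of_nonneg_right hsm' (by positivity))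
  rw [← hN₀] at hfew
  -- the test function
  obtain ⟨F, hF⟩ : ∃ F : ℝ → ℝ, F = fun x => sysf (ty (s' / Q)).2.1 q' (U s' (t s') x) := ⟨_, rfl⟩
  have hFm : Measurable F := by
    rw [hF]
    exact hFn'.meas.comp (hmeas s' hs' _)
  have hF1 : ∀ x, |F x| ≤ 1 := fun x => by rw [hF]; exact hFn'.bdd _
  -- the correlations
  obtain ⟨δ, hδ⟩ : ∃ δ : ℕ → ℝ, δ = fun j => if s = s' ∧ j = t s' ∧ q = q' then sysv (ty (s / Q)).2.1 q else 0 := ⟨_, rfl⟩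
  have hcor : ∀ j < 2 ^ (2 * K), |av (fun x => GU ty Q U ⟨s, q⟩ j x * F x) a ℓ - δ j| ≤ 6 * (m : ℝ) ^ 2 * (1 / z ^ 12) := by
    intro j hj
    rw [hδ, hF]
    exact hcorr s hs q hq j hj
  have hδs : ∑ j ∈ Finset.range (2 ^ (2 * K)), δ j = if (⟨s, q⟩ : Σ _ : ℕ, ℕ × ℕ × ℕ × ℕ) = ⟨s', q'⟩ then sysv (ty (s / Q)).2.1 q else 0 := by
    rw [hδ]
    by_cases h1 : s = s' ∧ q = q'
    · obtain ⟨h2, h3⟩ := h1
      subst h2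
      subst h3
      rw [if_pos rfl]
      simp only [true_and, and_true]
      rw [Finset.sum_ite_eq' (Finset.range (2 ^ (2 * K))) (t s) (fun _ => sysv (ty (s / Q)).2.1 q), if_pos (Finset.mem_range.2 ht1)]
    · rw [if_neg (by
        intro h2
        apply h1
        simpa using h2)]
      refine Finset.sum_eq_zero fun j _ => ?_
      rw [if_neg (fun h2 => h1 ⟨h2.1, h2.2.2⟩)]
  -- the constants
  have hβ := base_gt hQ hτs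
  have hCb : τ (s / Q) ^ Q / (τ (s / Q) ^ Q - 1) ≤ Cb := H.base.hCb _ (Cst.idx_lt hs)
  have hβ0 : 0 ≤ τ (s / Q) ^ Q / (τ (s / Q) ^ Q - 1) := div_nonneg (by linarith) (by linarith)
  have hwC0 : 0 ≤ 3 * (m : ℝ) ^ 2 * sysv (ty (s / Q)).2.1 q * (τ (s / Q) ^ Q / (τ (s / Q) ^ Q - 1)) := by positivity
  have hwC : 3 * (m : ℝ) ^ 2 * sysv (ty (s / Q)).2.1 q * (τ (s / Q) ^ Q / (τ (s / Q) ^ Q - 1)) ≤ z := by
    calc 3 * (m : ℝ) ^ 2 * sysv (ty (s / Q)).2.1 q * (τ (s / Q) ^ Q / (τ (s / Q) ^ Q - 1)) ≤ 3 * (m : ℝ) ^ 2 * 1 * Cb := by gcongr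
      _ = Cb * (3 * (m : ℝ) ^ 2) := by ring
      _ ≤ z := hCbK.trans hKz
  have hβpow : (τ (s / Q) ^ Q)⁻¹ ^ (2 ^ (2 * K) - (T s ℓ + L)) ≤ 1 / z ^ 12 := by
    have h1 : (τ (s / Q) ^ Q)⁻¹ ^ (2 ^ (2 * K) - (T s ℓ + L)) ≤ (τ (s / Q) ^ Q)⁻¹ ^ (R * K) := by
      refine pow_le_pow_of_le_one (inv_nonneg.2 (by linarith)) (inv_le_one_of_one_le₀ hβ.le) ?_
      omega
    refine h1.trans ?_
    have h2 : z ^ 12 ≤ (τ (s / Q) ^ Q) ^ (R * K) := by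
      calc z ^ 12 = (2 ^ 12) ^ K := by rw [hz, ← pow_mul, ← pow_mul, mul_comm]
        _ ≤ ((τ (s / Q) ^ Q) ^ R) ^ K := pow_le_pow_left₀ (by positivity) (H.base.hR _ (Cst.idx_lt hs)) K
        _ = _ := (pow_mul _ _ _).symm
    rw [inv_pow, ← one_div]
    exact one_div_le_one_div_of_le (by positivity) h2
  have hnz : ((T s ℓ : ℕ) : ℝ) ≤ z ^ 2 := by
    rw [← h2K]
    have : T s ℓ ≤ 2 ^ (2 * K) := by omega
    exact_mod_cast this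
  have hfew' : (((Finset.range (2 ^ Λ)).filter fun b : ℕ => ¬ ∃ v : ℝ, ∀ x ∈ Ioo (a + b * (ℓ / (2 ^ Λ : ℕ)))
        (a + (b + 1) * (ℓ / (2 ^ Λ : ℕ))), F x = v).card : ℝ) ≤ N₀ * (2 * (1 / z ^ 12) * ((2 ^ Λ : ℕ) : ℝ)) + 1 := by
    rw [hF]
    exact hfew
  have he₂' : |av F a ℓ| ≤ m * (1 / z ^ 24) := by
    rw [hF]
    exact he₂
  have hpair := pair4 hw hB1 hw' hFm hF1 hfew' δ (m := 2 ^ (2 * K)) (by omega) hcor he₂'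
  have hnum := num65 (z := z) (mr := m) (Nv := N₀) (e₁ := 6 * (m : ℝ) ^ 2 * (1 / z ^ 12)) (e₂ := m * (1 / z ^ 24))
    (N' := N₀ * (2 * (1 / z ^ 12) * ((2 ^ Λ : ℕ) : ℝ)) + 1) (Bq := ((2 ^ Λ : ℕ) : ℝ)) (nr := ((T s ℓ : ℕ) : ℝ))
    (wC := 3 * (m : ℝ) ^ 2 * sysv (ty (s / Q)).2.1 q * (τ (s / Q) ^ Q / (τ (s / Q) ^ Q - 1)))
    (τt := 3 * (m : ℝ) ^ 2 * sysv (ty (s / Q)).2.1 q * (τ (s / Q) ^ Q)⁻¹ ^ (2 ^ (2 * K) - (T s ℓ + L)) *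
      (τ (s / Q) ^ Q / (τ (s / Q) ^ Q - 1)))
    hz4 hm1 hmz hBz (Nat.cast_nonneg _) hN2 le_rfl rfl le_rfl (Nat.cast_nonneg _) hnz hwC0 hwC (by
      have h1 := mul_le_mul_of_nonneg_left hβpow hwC0
      calc _ = 3 * (m : ℝ) ^ 2 * sysv (ty (s / Q)).2.1 q * (τ (s / Q) ^ Q / (τ (s / Q) ^ Q - 1)) *
            (τ (s / Q) ^ Q)⁻¹ ^ (2 ^ (2 * K) - (T s ℓ + L)) := by ring
        _ ≤ _ := h1)
  rw [hδs] at hpair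
  rw [h4K]
  have hGF : GU ty Q U ⟨s', q'⟩ (t s') = F := by
    rw [hF]
    rfl
  show |(∑ b ∈ Finset.range (2 ^ Λ), (M (GU ty Q U ⟨s, q⟩) (a + b * (ℓ / (2 ^ Λ : ℕ))) (ℓ / (2 ^ Λ : ℕ)) -
      M (GU ty Q U ⟨s, q⟩) a ℓ) * av (GU ty Q U ⟨s', q'⟩ (t s')) (a + b * (ℓ / (2 ^ Λ : ℕ))) (ℓ / (2 ^ Λ : ℕ))) / (2 ^ Λ : ℕ) - _| ≤ _
  rw [hGF]
  refine hpair.trans ?_
  have e5 : ((2 ^ (2 * K) : ℕ) : ℝ) = z ^ 2 := by rw [← h2K]; push_cast; rfl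
  rw [e5]
  exact hnum

end Pool.Agent.Helper65.LD5
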