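import Pool.Agent.Helper65.LD5.TST2
import Pool.Agent.Helper68.LD5.PP
import Pool.Agent.Helper89.LD5.PairPL

/-!
# Project LD5, block TST2: the test of a power class, without hypotheses
-/

set_option autoImplicit false

namespace Pool.Agent.Helper65.LD5

open Set MeasureTheory Filter Topology
open Pool.Agent.Helper41.LD (av var haar DiscLe Dioph Kk)
open Pool.Agent.Helper41.LD2 (EqA)
open Pool.Agent.Helper41.LD3 (Cst Us tm fr lamG ll)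
open Pool.Agent.Helper41.LD4
open Pool.Agent.Helper41.LD5

variable {F : Fam} {κ D K : ℕ} {a₀ ℓst a ℓ : ℝ}

/-- TST2: the test of a power class -/
theorem test_pow (hF : F.Ok) (hκ : 1 ≤ κ) (B : F.Big κ D K) (S : F.St κ D K a₀ ℓst) (hℓ : 0 < ℓ) (h1 : a₀ ≤ a) (h2 : a + ℓ ≤ a₀ + ℓst)
    (hcount : ∀ s < (F.g + 1) * F.Q, F.T a₀ ℓst s (ℓ / 2 ^ (K ^ (2 * κ + 1))) + F.R * K ≤ 2 ^ (2 * K)) {s' : ℕ} (hs' : s' / F.Q = F.g) :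
    TestU F.ty5 (F.g + 1) F.Q F.m κ (F.U a₀ ℓst) K a ℓ s' := by
  refine test_pow_of ?_ ?_ hF hκ B S hℓ h1 h2 hcount hs'
  · intro F κ D K a₀ ℓst a ℓ N₀ N₀' m₁ m₂ w w' f f' a1 a2 a3 a4 a5 a6 a7 a8 Q₀ b1 b2 b3 b4 b5 b6 b7 b8 b9 c1 c2 c3 c4 m h u d1 d2 d3 d
    exact Pool.Agent.Helper89.LD5.pair_pl a1 a2 a3 a4 a5 a6 a7 a8 b1 b2 b3 b4 b5 b6 b7 b8 b9 c1 c2 c3 c4 d1 d2 d3 d
  · intro F κ D K a₀ ℓst a ℓ N₀ N₀' m₁ m₂ w w' f f' a1 a2 a3 a4 a5 a6 a7 Q₀ b1 b2 b3 b4 b5 b6 b7 b8 b9 c1 c2 c3 c4 m m' d1 d2 d3 d4 d5 d6 d7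
    exact Pool.Agent.Helper68.LD5.pair_pp a1 a2 a3 a4 a5 a6 a7 b1 b2 b3 b4 b5 b6 b7 b8 b9 c1 c2 c3 c4 d1 d2 d3 d4 d5 d6 d7

end Pool.Agent.Helper65.LD5
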