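import Pool.Agent.Helper41.LD5.Defs2
import Pool.Agent.Helper46.LD5.SAME
import Pool.Agent.Helper5.LD5.SQ1
import Pool.Agent.Helper68.LD5.FPA
import Pool.Agent.Helper8.LD5.SQ3
import Pool.Agent.Helper77.LD5.FW

/-!
# Project LD5, block TST2: the test of a power class
-/

set_option autoImplicit false

namespace Pool.Agent.Helper65.LD5

open Set MeasureTheory Filter Topology
open Pool.Agent.Helper41.LD (av var haar DiscLe Dioph Kk)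
open Pool.Agent.Helper41.LD2 (EqA)
open Pool.Agent.Helper41.LD3 (Cst Us tm fr lamG ll lin)
open Pool.Agent.Helper41.LD4
open Pool.Agent.Helper41.LD5
open Pool.Agent.Helper17.LD4 (sys_cls17)
open Pool.Agent.Helper77.LD5 (U_lin U_pow V_lin V_pow T_lin T_pow idx_pow St_K St_K1 St_a P_le fam_Sq V_T)
open Pool.Agent.Helper68.LD5 (fp_mono fp_near fp_add_le fp_nonneg pwf_lin)
open Pool.Agent.Helper8.LD5 (cv_few)
open Pool.Agent.Helper5.LD5 (cv_int)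

/-- the statement of `pair_pl` -/
def PairPL : Prop := ∀ {F : Fam} {κ D K : ℕ} {a₀ ℓst a ℓ : ℝ} {N₀ N₀' m₁ m₂ : ℕ} {w w' : ℝ} {f f' : ℝ → ℝ}, F.Ok → 1 ≤ κ →
    F.Big κ D K → F.St κ D K a₀ ℓst → 0 < ℓ → a₀ ≤ a → a + ℓ ≤ a₀ + ℓst →
    (2 : ℝ) ^ (K ^ (2 * κ + 1)) ≤ ℓ * 2 ^ (2 ^ (2 * K) * (F.Cx + 1) + F.Cx) → ∀ {Q₀ : ℕ}, 2 ^ ((D + 40) * K) ≤ Q₀ →
    Fn N₀ m₁ w f → Fn N₀' m₂ w' f' → m₁ ≤ F.m → m₂ ≤ F.m → 0 ≤ w → w ≤ F.m → 0 ≤ w' → w' ≤ F.m →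
    1 ≤ N₀ → 1 ≤ N₀' → N₀ ≤ F.m * 2 ^ K → N₀' ≤ F.m * 2 ^ K → ∀ {m h u : ℕ}, 2 * F.P ≤ m → h < F.g →
    ((((Q₀ : ℝ) + 1) * 2 ^ (24 * K) ≤ fp F.A₀ F.P m a * ℓ ∧ fp F.A₀ F.P m a * ℓ ≤ 2 * (1 / 2) ^ (12 * K) * 2 ^ (K ^ (2 * κ + 1))) ∨
      (((Q₀ : ℝ) + 1) * 2 ^ (24 * K) ≤ F.τ5 h ^ u * ℓ ∧ F.τ5 h ^ u * ℓ ≤ 2 * (1 / 2) ^ (12 * K) * 2 ^ (K ^ (2 * κ + 1)))) → ∀ (d : ℝ),
    |av (fun x => f (pwf F.A₀ F.cp F.P m x) * f' (F.τ5 h ^ u * x + d)) a ℓ| ≤ 6 * (F.m : ℝ) ^ 2 * (1 / 2) ^ (12 * K)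

/-- the statement of `pair_pp` -/
def PairPP : Prop := ∀ {F : Fam} {κ D K : ℕ} {a₀ ℓst a ℓ : ℝ} {N₀ N₀' m₁ m₂ : ℕ} {w w' : ℝ} {f f' : ℝ → ℝ}, F.Ok → 1 ≤ κ →
    F.Big κ D K → F.St κ D K a₀ ℓst → 0 < ℓ → a₀ ≤ a → a + ℓ ≤ a₀ + ℓst → ∀ {Q₀ : ℕ}, 2 ^ ((D + 40) * K) ≤ Q₀ →
    Fn N₀ m₁ w f → Fn N₀' m₂ w' f' → m₁ ≤ F.m → m₂ ≤ F.m → 0 ≤ w → w ≤ F.m → 0 ≤ w' → w' ≤ F.m →
    1 ≤ N₀ → 1 ≤ N₀' → N₀ ≤ F.m * 2 ^ K → N₀' ≤ F.m * 2 ^ K → ∀ {m m' : ℕ}, 2 * F.P ≤ m → m ≤ 2 ^ (3 * K) →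
    2 * F.P ≤ m' → m' ≤ 2 ^ (3 * K) → m ≠ m' →
    ((Q₀ : ℝ) + 1) * 2 ^ (24 * K) ≤ fp F.A₀ F.P m' a * ℓ → fp F.A₀ F.P m' a * ℓ ≤ 2 * (1 / 2) ^ (12 * K) * 2 ^ (K ^ (2 * κ + 1)) →
    |av (fun x => f (pwf F.A₀ F.cp F.P m x) * f' (pwf F.A₀ F.cp F.P m' x)) a ℓ| ≤ 6 * (F.m : ℝ) ^ 2 * (1 / 2) ^ (12 * K)

variable {F : Fam} {κ D K : ℕ} {a₀ ℓst a ℓ : ℝ}

/-- the exponents of a stage are large -/
theorem P2_le (hF : F.Ok) (B : F.Big κ D K) (S : F.St κ D K a₀ ℓst) (e j : ℕ) :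
    2 * F.P ≤ F.Q * (tp F.A₀ F.P F.Q e a₀ ℓst + j) + e := by
  have h1 := tp_big hF B.hCx S.lo (St_a S) S.pos (St_K1 S) e
  have hQ := hF.H.base.hQ
  have h2 : 2 * F.P ≤ 4 * F.P * F.Q := by
    calc 2 * F.P ≤ 4 * F.P := by omega
      _ ≤ 4 * F.P * F.Q := Nat.le_mul_of_pos_right _ (by omega)
  have h3 : F.Q * tp F.A₀ F.P F.Q e a₀ ℓst ≤ F.Q * (tp F.A₀ F.P F.Q e a₀ ℓst + j) := Nat.mul_le_mul_left _ (by omega)
  omega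

/-- TST2 -/
theorem test_pow_of (pair_pl : PairPL) (pair_pp : PairPP) (hF : F.Ok) (hκ : 1 ≤ κ) (B : F.Big κ D K) (S : F.St κ D K a₀ ℓst)
    (hℓ : 0 < ℓ) (h1 : a₀ ≤ a) (h2 : a + ℓ ≤ a₀ + ℓst)
    (hcount : ∀ s < (F.g + 1) * F.Q, F.T a₀ ℓst s (ℓ / 2 ^ (K ^ (2 * κ + 1))) + F.R * K ≤ 2 ^ (2 * K)) {s' : ℕ} (hs' : s' / F.Q = F.g) :
    TestU F.ty5 (F.g + 1) F.Q F.m κ (F.U a₀ ℓst) K a ℓ s' := by
  classical
  obtain ⟨Q₀, ε, hQ₀, hQ₁, hε0, hε, -⟩ := B.hTT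
  have hQ := hF.H.base.hQ
  have hQ' : 0 < F.Q := by omega
  have hP := hF.hP
  have hA := hF.hA
  have hx1 := hF.h1
  have hlo := S.lo
  have hhi := S.hi
  have hst : ℓ ≤ ℓst := by linarith
  have ha0 : 0 < a₀ := by linarith
  have hK := B.hK
  have hK1 : 1 ≤ K := by omega
  have hpow : ¬ s' / F.Q < F.g := by omega
  have hs'' : s' < (F.g + 1) * F.Q := (Nat.div_lt_iff_lt_mul hQ').1 (by omega)
  have hlow := len_low hF hκ B S hℓ hst hcount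
  have hcs := hcount s' hs''
  have hB1 : 1 ≤ 2 ^ (K ^ (2 * κ + 1)) := Nat.one_le_two_pow
  have hBr : (((2 ^ (K ^ (2 * κ + 1)) : ℕ)) : ℝ) = 2 ^ (K ^ (2 * κ + 1)) := by push_cast; rfl
  have hR := hF.H.base.hR1
  have hRK : 1 ≤ F.R * K := Nat.mul_pos hR hK1
  have he : s' % F.Q < F.Q := Nat.mod_lt _ hQ'
  -- the level
  obtain ⟨Y, hY⟩ : ∃ Y : ℝ, Y = ((Q₀ : ℝ) + 1) * 2 ^ (24 * K) := ⟨_, rfl⟩
  have hQ0 : (0 : ℝ) ≤ Q₀ := Nat.cast_nonneg _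
  have hY24 : (2 : ℝ) ^ (24 * K) ≤ Y := by
    rw [hY]
    exact le_mul_of_one_le_left (by positivity) (by linarith)
  have hY1 : 1 ≤ Y := (one_le_pow₀ (by norm_num)).trans hY24
  have hYΛ : 2 ^ F.DF * Y * 2 ≤ (1 / 2) ^ (12 * K) * 2 ^ (K ^ (2 * κ + 1)) := by
    refine le_trans ?_ hQ₁
    have h3 : (2 : ℝ) ^ (24 * K) ≤ 2 ^ ((36 + 12 * F.Cq) * K) := pow_le_pow_right₀ (by norm_num) (Nat.mul_le_mul_right _ (by omega))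
    have h4 : (2 : ℝ) ^ F.DF * 2 ≤ 2 ^ (F.DF + 2) := by
      rw [← pow_succ]
      exact pow_le_pow_right₀ (by norm_num) (by omega)
    calc 2 ^ F.DF * Y * 2 = ((Q₀ : ℝ) + 1) * 2 ^ (24 * K) * (2 ^ F.DF * 2) := by rw [hY]; ring
      _ ≤ ((Q₀ : ℝ) + 1) * 2 ^ ((36 + 12 * F.Cq) * K) * 2 ^ (F.DF + 2) :=
        mul_le_mul (mul_le_mul_of_nonneg_left h3 (by positivity)) h4 (by positivity) (by positivity)
  have h12le : (1 / 2 : ℝ) ^ (12 * K) ≤ 1 := pow_le_one₀ (by norm_num) (by norm_num)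
  have hDF1 : (1 : ℝ) ≤ 2 ^ F.DF := one_le_pow₀ (by norm_num)
  have hΛ0 : (0 : ℝ) < 2 ^ (K ^ (2 * κ + 1)) := by positivity
  have hYle : Y ≤ 2 ^ (K ^ (2 * κ + 1)) := by
    have h3 : Y ≤ 2 ^ F.DF * Y * 2 := by nlinarith
    have h4 : (1 / 2 : ℝ) ^ (12 * K) * 2 ^ (K ^ (2 * κ + 1)) ≤ 1 * 2 ^ (K ^ (2 * κ + 1)) := mul_le_mul_of_nonneg_right h12le hΛ0.le
    linarith
  -- the time of the test
  obtain ⟨J, hJ⟩ : ∃ J : ℕ, J = F.T a₀ ℓst s' (ℓ / 2 ^ (K ^ (2 * κ + 1))) := ⟨_, rfl⟩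
  obtain ⟨m', hm'⟩ : ∃ m' : ℕ → ℕ, m' = fun j => F.Q * (tp F.A₀ F.P F.Q (s' % F.Q) a₀ ℓst + j) + s' % F.Q := ⟨_, rfl⟩
  have hVm : ∀ j x, F.V a₀ ℓst s' j x = fp F.A₀ F.P (m' j) x := fun j x => by rw [hm']; exact V_pow hpow j x
  have hUm : ∀ j, F.U a₀ ℓst s' j = pwf F.A₀ F.cp F.P (m' j) := fun j => by rw [hm', U_pow hpow]
  have hPm : ∀ j, F.P ≤ m' j := fun j => by rw [hm']; exact P_le hF B S _ j
  have hPm2 : ∀ j, 2 * F.P ≤ m' j := fun j => by rw [hm']; exact P2_le hF B S _ j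
  have hℓΛ : 0 < ℓ / 2 ^ (K ^ (2 * κ + 1)) := by positivity
  have hJY : Y ≤ fp F.A₀ F.P (m' J) a₀ * ℓ := by
    have h3 := V_T hF B S hℓΛ ((div_le_self hℓ.le (one_le_pow₀ (by norm_num))).trans hst) (le_refl a₀) hpow
    rw [← hJ, hVm, ← mul_div_assoc, one_le_div hΛ0] at h3
    exact hYle.trans h3
  have hex : ∃ j, Y ≤ fp F.A₀ F.P (m' j) a₀ * ℓ := ⟨J, hJY⟩
  obtain ⟨t, ht⟩ : ∃ t : ℕ, t = Nat.find hex := ⟨_, rfl⟩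
  have htY : Y ≤ fp F.A₀ F.P (m' t) a₀ * ℓ := by rw [ht]; exact Nat.find_spec hex
  have htJ : t ≤ J := by rw [ht]; exact Nat.find_min' hex hJY
  have ht2 : t < 2 ^ (2 * K) := by
    rw [← hJ] at hcs
    omega
  have hub : fp F.A₀ F.P (m' t) a₀ * ℓ ≤ 2 ^ F.DF * Y := by
    rcases Nat.eq_zero_or_pos t with h0 | h0
    · have h3 := fp_tp_le hF B.hCx S.lo (St_a S) S.pos (St_K1 S) he
      have h4 : m' t = F.Q * tp F.A₀ F.P F.Q (s' % F.Q) a₀ ℓst + s' % F.Q := by rw [hm', h0]; rfl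
      rw [h4]
      have h5 := fp_nonneg (A₀ := F.A₀) (P := F.P) (m := F.Q * tp F.A₀ F.P F.Q (s' % F.Q) a₀ ℓst + s' % F.Q) hA ha0
      calc _ ≤ fp F.A₀ F.P (F.Q * tp F.A₀ F.P F.Q (s' % F.Q) a₀ ℓst + s' % F.Q) a₀ * ℓst := mul_le_mul_of_nonneg_left hst h5
        _ ≤ 2 ^ F.DF := h3
        _ ≤ 2 ^ F.DF * Y := le_mul_of_one_le_right (by positivity) hY1
    · obtain ⟨t', rfl⟩ : ∃ t', t = t' + 1 := ⟨t - 1, by omega⟩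
      have h3 : ¬ Y ≤ fp F.A₀ F.P (m' t') a₀ * ℓ := Nat.find_min hex (by omega)
      have h4 := fp_add_le (x := a₀) hF (hPm t') S.lo (St_a S)
      have h5 : m' (t' + 1) = m' t' + F.Q := by rw [hm']; ring
      rw [h5]
      calc fp F.A₀ F.P (m' t' + F.Q) a₀ * ℓ ≤ 2 ^ F.DF * fp F.A₀ F.P (m' t') a₀ * ℓ := mul_le_mul_of_nonneg_right h4 hℓ.le
        _ = 2 ^ F.DF * (fp F.A₀ F.P (m' t') a₀ * ℓ) := by ring
        _ ≤ 2 ^ F.DF * Y := mul_le_mul_of_nonneg_left (not_le.1 h3).le (by positivity)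
  have hm2 : m' t ≤ 2 ^ (3 * K) := by rw [hm']; exact tp_bound hF hκ B S he ht2.le
  have h4K : ℓst * 2 ^ (4 * K + 1) ≤ 1 := St_K S (by
    calc 4 * K + 1 ≤ K ^ 2 := by nlinarith
      _ ≤ K ^ (2 * κ + 2) := Nat.pow_le_pow_right (by omega) (by omega))
  have hnear : ∀ x, a₀ ≤ x → x ≤ a₀ + ℓst → fp F.A₀ F.P (m' t) x * ℓ ≤ 2 ^ F.DF * Y * 2 := by
    intro x hx hx2
    have h3 := fp_near hA hP (hPm t) hm2 (δ := ℓst) (by linarith) hx hx2 h4K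
    have h4 : (2 : ℝ) ^ (3 * K + 1) * ℓst ≤ 1 := by
      refine le_trans ?_ h4K
      rw [mul_comm]
      exact mul_le_mul_of_nonneg_left (pow_le_pow_right₀ (by norm_num) (by omega)) S.pos.le
    have h5 := fp_nonneg (A₀ := F.A₀) (P := F.P) (m := m' t) hA ha0
    calc fp F.A₀ F.P (m' t) x * ℓ ≤ fp F.A₀ F.P (m' t) a₀ * (1 + 2 ^ (3 * K + 1) * ℓst) * ℓ := mul_le_mul_of_nonneg_right h3 hℓ.le
      _ ≤ fp F.A₀ F.P (m' t) a₀ * 2 * ℓ := mul_le_mul_of_nonneg_right (mul_le_mul_of_nonneg_left (by linarith) h5) hℓ.le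
      _ = fp F.A₀ F.P (m' t) a₀ * ℓ * 2 := by ring
      _ ≤ 2 ^ F.DF * Y * 2 := mul_le_mul_of_nonneg_right hub (by norm_num)
  have hmonoa : fp F.A₀ F.P (m' t) a₀ ≤ fp F.A₀ F.P (m' t) a := fp_mono hA hP (hPm t) ha0 h1
  have hYa : Y ≤ fp F.A₀ F.P (m' t) a * ℓ := htY.trans (mul_le_mul_of_nonneg_right hmonoa hℓ.le)
  have hW0 : (0 : ℝ) ≤ (1 / 2) ^ (12 * K) * 2 ^ (K ^ (2 * κ + 1)) := by positivity
  have hYa2 : fp F.A₀ F.P (m' t) a * ℓ ≤ 2 * (1 / 2) ^ (12 * K) * 2 ^ (K ^ (2 * κ + 1)) := by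
    have h3 := hnear a h1 (by linarith)
    linarith
  have hYb2 : fp F.A₀ F.P (m' t) (a + ℓ) * ℓ ≤ 2 * (1 / 2) ^ (12 * K) * 2 ^ (K ^ (2 * κ + 1)) := by
    have h3 := hnear (a + ℓ) (by linarith) h2
    linarith
  have hCv : Cv (F.U a₀ ℓst s' t) (F.V a₀ ℓst s' t) a (a + ℓ) := ((fam_Sq hF hκ B S hs'').cv t).sub h1 h2
  have hfr : ∀ {s : ℕ}, s < (F.g + 1) * F.Q → ∀ q ∈ sysI (F.ty5 (s / F.Q)).2.1 K,
      Fn (sysN (F.ty5 (s / F.Q)).2.1 K) (sysm (F.ty5 (s / F.Q)).2.1) (sysm (F.ty5 (s / F.Q)).2.1 * sysv (F.ty5 (s / F.Q)).2.1 q)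
        (sysf (F.ty5 (s / F.Q)).2.1 q) ∧ sysm (F.ty5 (s / F.Q)).2.1 ≤ F.m ∧
      0 ≤ (sysm (F.ty5 (s / F.Q)).2.1 * sysv (F.ty5 (s / F.Q)).2.1 q : ℝ) ∧
      (sysm (F.ty5 (s / F.Q)).2.1 * sysv (F.ty5 (s / F.Q)).2.1 q : ℝ) ≤ F.m ∧ 1 ≤ sysN (F.ty5 (s / F.Q)).2.1 K ∧
      sysN (F.ty5 (s / F.Q)).2.1 K ≤ F.m * 2 ^ K := by
    intro s hs q hq
    have hSys := sys_cls17 hF.H hK1 hs
    have h3 := hF.H.hm _ (Cst.idx_lt hs)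
    have h3' : (sysm (F.ty5 (s / F.Q)).2.1 : ℝ) ≤ F.m := by exact_mod_cast h3
    have h4 := hSys.v_hi q hq
    have h5 : 0 ≤ sysv (F.ty5 (s / F.Q)).2.1 q := by
      refine le_trans ?_ (hSys.v_lo q hq)
      positivity
    refine ⟨hSys.fn q hq, h3, by positivity, ?_, hSys.N1, hSys.N2.trans (Nat.mul_le_mul_right _ h3)⟩
    calc (sysm (F.ty5 (s / F.Q)).2.1 * sysv (F.ty5 (s / F.Q)).2.1 q : ℝ) ≤ F.m * 1 := mul_le_mul h3' h4 h5 (Nat.cast_nonneg _)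
      _ = F.m := mul_one _
  refine ⟨t, ht2, fun q' hq' => ?_⟩
  obtain ⟨hFn', hsm', hw0', hw1', hN1', hN2'⟩ := hfr hs'' q' hq'
  have hm0 : (0 : ℝ) ≤ F.m := Nat.cast_nonneg _
  refine ⟨?_, ?_, ?_⟩
  · -- the children
    have h3 := cv_few hFn' hN1' hCv hℓ hB1
    refine h3.trans ?_
    rw [hVm, hBr]
    have h4 := mul_le_mul_of_nonneg_left hYb2 (Nat.cast_nonneg (α := ℝ) (sysN (F.ty5 (s' / F.Q)).2.1 K))
    linarith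
  · -- the mean
    have h3 := cv_int hFn' hCv (by linarith)
    rw [hVm] at h3
    unfold av
    rw [abs_div, abs_of_pos hℓ, div_le_iff₀ hℓ]
    refine h3.trans ?_
    have hV0 : 0 < fp F.A₀ F.P (m' t) a := by
      by_contra h4
      have h5 : fp F.A₀ F.P (m' t) a * ℓ ≤ 0 := mul_nonpos_of_nonpos_of_nonneg (not_lt.1 h4) hℓ.le
      linarith
    rw [div_le_iff₀ hV0]
    have h6 : (1 : ℝ) ≤ (1 / 2) ^ (24 * K) * (fp F.A₀ F.P (m' t) a * ℓ) := by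
      have h7 : (1 / 2 : ℝ) ^ (24 * K) * 2 ^ (24 * K) = 1 := by rw [← mul_pow]; norm_num
      calc (1 : ℝ) = (1 / 2) ^ (24 * K) * 2 ^ (24 * K) := h7.symm
        _ ≤ (1 / 2) ^ (24 * K) * (fp F.A₀ F.P (m' t) a * ℓ) := mul_le_mul_of_nonneg_left (hY24.trans hYa) (by positivity)
    calc (sysm (F.ty5 (s' / F.Q)).2.1 * sysv (F.ty5 (s' / F.Q)).2.1 q' : ℝ) ≤ F.m * 1 := by linarith
      _ ≤ F.m * ((1 / 2) ^ (24 * K) * (fp F.A₀ F.P (m' t) a * ℓ)) := mul_le_mul_of_nonneg_left h6 hm0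
      _ = F.m * (1 / 2) ^ (24 * K) * ℓ * fp F.A₀ F.P (m' t) a := by ring
  · -- the correlations
    intro s hs q hq j hj
    obtain ⟨hFn, hsm, hw0, hw1, hN1, hN2⟩ := hfr hs q hq
    rw [hY] at hYa
    by_cases hlin : s / F.Q < F.g
    · have hne : ¬ (s = s' ∧ j = t ∧ q = q') := fun h3 => hpow (h3.1 ▸ hlin)
      rw [if_neg hne, sub_zero]
      have h3 := pair_pl hF hκ B S hℓ h1 h2 hlow hQ₀ hFn' hFn hsm' hsm hw0' hw1' hw0 hw1 hN1' hN1 hN2' hN2 (hPm2 t) hlin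
        (u := F.Q * (tm F.τ5 F.Q s ℓst + j) + s % F.Q) (Or.inl ⟨hYa, hYa2⟩) (F.c (fr F.τ5 F.Q s (tm F.τ5 F.Q s ℓst + j)))
      have h4 : (fun x => sysf (F.ty5 (s / F.Q)).2.1 q (F.U a₀ ℓst s j x) * sysf (F.ty5 (s' / F.Q)).2.1 q' (F.U a₀ ℓst s' t x)) =
          fun x => sysf (F.ty5 (s' / F.Q)).2.1 q' (pwf F.A₀ F.cp F.P (m' t) x) *
            sysf (F.ty5 (s / F.Q)).2.1 q (F.τ5 (s / F.Q) ^ (F.Q * (tm F.τ5 F.Q s ℓst + j) + s % F.Q) * x +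
              F.c (fr F.τ5 F.Q s (tm F.τ5 F.Q s ℓst + j))) := by
        funext x
        rw [hUm, U_lin hlin, mul_comm]
        rfl
      rw [h4]
      exact h3
    · have hsg := idx_pow hs hlin
      have hUs : F.U a₀ ℓst s j = pwf F.A₀ F.cp F.P (F.Q * (tp F.A₀ F.P F.Q (s % F.Q) a₀ ℓst + j) + s % F.Q) := by rw [U_pow hlin]
      by_cases hmm : F.Q * (tp F.A₀ F.P F.Q (s % F.Q) a₀ ℓst + j) + s % F.Q = m' t
      · have h3 : F.Q * (tp F.A₀ F.P F.Q (s % F.Q) a₀ ℓst + j) + s % F.Q = F.Q * (tp F.A₀ F.P F.Q (s' % F.Q) a₀ ℓst + t) + s' % F.Q := by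
          rw [hmm, hm']
        have h4 : s % F.Q = s' % F.Q := by
          have h5 := congrArg (· % F.Q) h3
          simpa [Nat.mul_add_mod] using h5
        have h5 : s = s' := by
          rw [← Nat.div_add_mod s F.Q, ← Nat.div_add_mod s' F.Q, h4, hsg, hs']
        subst h5
        have h6 : j = t := by
          have h7 : F.Q * (tp F.A₀ F.P F.Q (s % F.Q) a₀ ℓst + j) = F.Q * (tp F.A₀ F.P F.Q (s % F.Q) a₀ ℓst + t) := by omega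
          have h8 := Nat.eq_of_mul_eq_mul_left hQ' h7
          omega
        subst h6
        have h7 := Pool.Agent.Helper46.LD5.pair_same_of (fun {F κ K a ℓ m} => pwf_lin) hF hκ B S hℓ h1 h2 hFn hFn' hN1 hN1' hN2 hN2'
          (hPm2 j) hm2 (hY24.trans (by rw [hY]; exact hYa)) hYa2
        have hSys := sys_cls17 hF.H hK1 hs
        have h8 : (∫ x in (0 : ℝ)..1, sysf (F.ty5 (s / F.Q)).2.1 q x * sysf (F.ty5 (s / F.Q)).2.1 q' x) =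
            if s = s ∧ j = j ∧ q = q' then sysv (F.ty5 (s / F.Q)).2.1 q else 0 := by
          by_cases h9 : q = q'
          · subst h9
            rw [if_pos ⟨rfl, rfl, rfl⟩]
            exact hSys.norm q hq
          · rw [if_neg fun h10 => h9 h10.2.2]
            exact hSys.orth q hq q' hq' h9
        rw [h8] at h7
        rw [hUm]
        exact h7
      · have hne : ¬ (s = s' ∧ j = t ∧ q = q') := by
          rintro ⟨h3, h4, -⟩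
          apply hmm
          rw [h3, h4, hm']
        rw [if_neg hne, sub_zero, hUs, hUm]
        exact pair_pp hF hκ B S hℓ h1 h2 hQ₀ hFn hFn' hsm hsm' hw0 hw1 hw0' hw1' hN1 hN1' hN2 hN2' (P2_le hF B S _ j)
          (tp_bound hF hκ B S (Nat.mod_lt _ hQ') hj.le) (hPm2 t) hm2 hmm hYa hYa2

end Pool.Agent.Helper65.LD5
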